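import Pool.Agent.Lib.MP_882835_al.Final

namespace Pool.Agent.Results.MP_882835_al.Counterexample

open Pool.Agent.Lib.MP_882835_al

/-- There is a finite non-abelian group (of order 512) with as many endomorphisms as partial
isomorphisms. -/
theorem result : ∃ (G : Type) (_ : Group G), Finite G ∧ Nat.card G = 512 ∧
    (∃ a b : G, a * b ≠ b * a) ∧
    Nat.card (G →* G) = Nat.card (Σ H : Subgroup G, Σ K : Subgroup G, H ≃* K) :=
  ⟨GG, inferInstance, inferInstance, GG.card, GG.noncomm, end_value.trans piso_value.symm⟩

end Pool.Agent.Results.MP_882835_al.Counterexample
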